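import Mathlib
import Pool.Agent.N704.LT.J

open Matrix

namespace Pool.Agent.Results.MP_f4f39d_al.Classification

/-- `M` is irreducible tridiagonal: all entries `(i,j)` with `|i-j| > 1` are zero and all entries
`(i,i+1)` and `(i+1,i)` are nonzero (rows and columns are indexed by `0,…,d`). -/
def IrredTridiagonal {K : Type*} [Field K] {d : ℕ}
    (M : Matrix (Fin (d + 1)) (Fin (d + 1)) K) : Prop :=
  (∀ i j : Fin (d + 1), (i : ℕ) + 1 < (j : ℕ) ∨ (j : ℕ) + 1 < (i : ℕ) → M i j = 0) ∧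
  (∀ i j : Fin (d + 1), (j : ℕ) = (i : ℕ) + 1 ∨ (i : ℕ) = (j : ℕ) + 1 → M i j ≠ 0)

/-- There is a basis of `K^{d+1}` (the columns of an invertible matrix `P`) in which `X` is
represented by a diagonal matrix and `Y`, `Z` by irreducible tridiagonal matrices. -/
def DiagonalizesWith {K : Type*} [Field K] {d : ℕ}
    (X Y Z : Matrix (Fin (d + 1)) (Fin (d + 1)) K) : Prop :=
  ∃ P : Matrix (Fin (d + 1)) (Fin (d + 1)) K, IsUnit P ∧
    (P⁻¹ * X * P).IsDiag ∧ IrredTridiagonal (P⁻¹ * Y * P) ∧ IrredTridiagonal (P⁻¹ * Z * P)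

/-- `(X, Y, Z)` is a Leonard triple on `K^{d+1}`. -/
def IsLeonardTriple {K : Type*} [Field K] {d : ℕ}
    (X Y Z : Matrix (Fin (d + 1)) (Fin (d + 1)) K) : Prop :=
  DiagonalizesWith X Y Z ∧ DiagonalizesWith Y X Z ∧ DiagonalizesWith Z X Y

/-- The matrix `A`: `A_{i,i+1} = d - i`, `A_{i+1,i} = i + 1`, all other entries zero. -/
def matA (K : Type*) [Field K] (d : ℕ) : Matrix (Fin (d + 1)) (Fin (d + 1)) K :=
  Matrix.of fun i j =>
    if (j : ℕ) = (i : ℕ) + 1 then (d : K) - ((i : ℕ) : K)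
    else if (i : ℕ) = (j : ℕ) + 1 then ((j : ℕ) : K) + 1 else 0

/-- The matrix `A^* = diag(d, d-2, …, -d)`. -/
def matAstar (K : Type*) [Field K] (d : ℕ) : Matrix (Fin (d + 1)) (Fin (d + 1)) K :=
  Matrix.diagonal fun i => (d : K) - 2 * ((i : ℕ) : K)

/-- All matrices `X` such that `(A, A^*, X)` is a Leonard triple. -/
theorem result : ∀ (K : Type*) [Field K] [IsAlgClosed K] [CharZero K] (d : ℕ)
    (X : Matrix (Fin (d + 1)) (Fin (d + 1)) K),
    IsLeonardTriple (matA K d) (matAstar K d) X ↔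
    (∃ x a b c : K, a ^ 2 ≠ 4 * c ^ 2 ∧ b ^ 2 ≠ 4 * c ^ 2 ∧ a ^ 2 + b ^ 2 ≠ 4 * c ^ 2 ∧
      X = x • (1 : Matrix (Fin (d + 1)) (Fin (d + 1)) K) + a • matA K d + b • matAstar K d
        + c • (matA K d * matAstar K d - matAstar K d * matA K d)) ∨
    (d = 2 ∧ ∃ x c e : K, c ^ 2 ≠ e ^ 2 ∧
      X = x • (1 : Matrix (Fin (d + 1)) (Fin (d + 1)) K)
        + c • (matA K d * matAstar K d - matAstar K d * matA K d)
        + e • (matA K d * matAstar K d + matAstar K d * matA K d)) := by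
  intro K _ _ _ d X
  exact N704.LT.classification X

end Pool.Agent.Results.MP_f4f39d_al.Classification
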