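import Mathlib
import Pool.Agent.N704.LT.J

open Matrix

namespace Pool.Agent.Results.MP_f4f39d_al.CommutatorSpan

/-- `M` is irreducible tridiagonal: all entries `(i,j)` with `|i-j| > 1` are zero and all entries
`(i,i+1)` and `(i+1,i)` are nonzero (rows and columns are indexed by `0,…,d`). -/
def IrredTridiagonal {K : Type*} [Field K] {d : ℕ}
    (M : Matrix (Fin (d + 1)) (Fin (d + 1)) K) : Prop :=
  (∀ i j : Fin (d + 1), (i : ℕ) + 1 < (j : ℕ) ∨ (j : ℕ) + 1 < (i : ℕ) → M i j = 0) ∧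
  (∀ i j : Fin (d + 1), (j : ℕ) = (i : ℕ) + 1 ∨ (i : ℕ) = (j : ℕ) + 1 → M i j ≠ 0)

/-- There is a basis of `K^{d+1}` (the columns of an invertible matrix `P`) in which `X` is
represented by a diagonal matrix and `Y`, `Z` by irreducible tridiagonal matrices. -/
def DiagonalizesWith {K : Type*} [Field K] {d : ℕ}
    (X Y Z : Matrix (Fin (d + 1)) (Fin (d + 1)) K) : Prop :=
  ∃ P : Matrix (Fin (d + 1)) (Fin (d + 1)) K, IsUnit P ∧
    (P⁻¹ * X * P).IsDiag ∧ IrredTridiagonal (P⁻¹ * Y * P) ∧ IrredTridiagonal (P⁻¹ * Z * P)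

/-- `(X, Y, Z)` is a Leonard triple on `K^{d+1}`. -/
def IsLeonardTriple {K : Type*} [Field K] {d : ℕ}
    (X Y Z : Matrix (Fin (d + 1)) (Fin (d + 1)) K) : Prop :=
  DiagonalizesWith X Y Z ∧ DiagonalizesWith Y X Z ∧ DiagonalizesWith Z X Y

/-- The matrix `A`: `A_{i,i+1} = d - i`, `A_{i+1,i} = i + 1`, all other entries zero. -/
def matA (K : Type*) [Field K] (d : ℕ) : Matrix (Fin (d + 1)) (Fin (d + 1)) K :=
  Matrix.of fun i j =>
    if (j : ℕ) = (i : ℕ) + 1 then (d : K) - ((i : ℕ) : K)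
    else if (i : ℕ) = (j : ℕ) + 1 then ((j : ℕ) : K) + 1 else 0

/-- The matrix `A^* = diag(d, d-2, …, -d)`. -/
def matAstar (K : Type*) [Field K] (d : ℕ) : Matrix (Fin (d + 1)) (Fin (d + 1)) K :=
  Matrix.diagonal fun i => (d : K) - 2 * ((i : ℕ) : K)

/-- The commutator of two matrices. -/
def comm {K : Type*} [Field K] {d : ℕ} (X Y : Matrix (Fin (d + 1)) (Fin (d + 1)) K) :
    Matrix (Fin (d + 1)) (Fin (d + 1)) K := X * Y - Y * X

/-- The three commutators of `A, A^*, X` all lie in the linear span of `I, A, A^*, X`. -/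
def CommutatorsInSpan {K : Type*} [Field K] {d : ℕ}
    (X : Matrix (Fin (d + 1)) (Fin (d + 1)) K) : Prop :=
  comm (matA K d) (matAstar K d) ∈ Submodule.span K {1, matA K d, matAstar K d, X} ∧
  comm (matAstar K d) X ∈ Submodule.span K {1, matA K d, matAstar K d, X} ∧
  comm X (matA K d) ∈ Submodule.span K {1, matA K d, matAstar K d, X}

/-- For every `d ≥ 1` the assertion of Q2 fails: `(A, A^*, A + A^*)` is a Leonard triple and
`[A, A^*]` is not in the span of `I, A, A^*, A + A^*`. Moreover, for a Leonard triple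
`(A, A^*, X)`, the three commutators all lie in the span of `I, A, A^*, X` iff
`X = x I + a A + b A^* + c [A, A^*]` for some scalars with `c ≠ 0`. -/
theorem result : ∀ (K : Type*) [Field K] [IsAlgClosed K] [CharZero K] (d : ℕ), 1 ≤ d →
    (IsLeonardTriple (matA K d) (matAstar K d) (matA K d + matAstar K d) ∧
      comm (matA K d) (matAstar K d) ∉
        Submodule.span K {1, matA K d, matAstar K d, matA K d + matAstar K d}) ∧
    (∀ X : Matrix (Fin (d + 1)) (Fin (d + 1)) K,
      IsLeonardTriple (matA K d) (matAstar K d) X →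
      (CommutatorsInSpan X ↔
        ∃ x a b c : K, c ≠ 0 ∧
          X = x • (1 : Matrix (Fin (d + 1)) (Fin (d + 1)) K) + a • matA K d + b • matAstar K d
            + c • comm (matA K d) (matAstar K d))) := by
  intro K _ _ _ d hd
  refine ⟨⟨N704.LT.triple_sum, N704.LT.sum_not_mem hd⟩, ?_⟩
  intro X hL
  constructor
  · rintro ⟨h, -, -⟩
    exact N704.LT.comm_mem_iff hd hL h
  · rintro ⟨x, a, b, c, hc, hX⟩
    exact N704.LT.all_mem x a b c hc hX

end Pool.Agent.Results.MP_f4f39d_al.CommutatorSpan
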